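import Pool.Agent.H.MP_cba12a_lc.MG.Learn

/-!
# DNF formulas in which few terms contain any given set of `t + 1` variables

For all constants `t` and `d`, one algorithm learns, from uniform random labelled examples only,
the (not necessarily unate) DNF formulas with any number of terms in which any `t + 1` variables
occur together in at most `d` terms and every term has at most `r` literals, or at least
`c (⌈log a⌉ + 1)` literals, or contains only variables which occur in at most `d` terms and in no
term with at most `r` literals. The time is polynomial in `(n + 1) ^ r` and the length of the input.
For `t = 0` and `r = 0` these are all DNF formulas in which every variable occurs in at most `d`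
terms.
-/

namespace Pool.Agent.Results.MP_cba12a_lc.CodegreeReadDNF

open Pool.Agent.H.MP_5be563_lc.PT Pool.Agent.H.MP_cba12a_lc Pool.Agent.H.MP_cba12a_lc.MG

/-- **For all constants `t` and `d`, DNF formulas in which any `t + 1` variables occur together in
at most `d` terms are learnable from uniform random examples.**

`learn (n, r, a, S)` is the hypothesis (a DNF formula) found from the labelled sample `S` with
accuracy parameter `ε = 1 / a`, in time polynomial in `(n + 1) ^ r` and the length of the input.
The target `f` is a function `g` computed by a DNF formula, with any number of terms and not
necessarily unate, in which any `t + 1` different variables occur together in at most `d` terms and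
every term has at most `r` literals, or at least `c (⌈log a⌉ + 1)` literals, or contains only
variables which occur in at most `d` terms and in no term with at most `r` literals; or more
generally `f` differs from such a `g` on at most a fraction `1 / Q (n + a)` of the cube. For
`t = 0` and `r = 0` the condition on the lengths is void. -/
theorem result (t d : ℕ) :
    ∃ (c : ℕ) (learn : ℕ × ℕ × ℕ × Samples → List (List Lit)) (P Q : Polynomial ℕ),
      ComputedInTime learn (fun i => P.eval ((i.1 + 1) ^ i.2.1 + (code i).length)) ∧
      ∀ (n r a b m : ℕ) (f g : (Fin n → Bool) → Bool), 1 ≤ a → 1 ≤ b →
        MixDNF t d r (c * (Nat.clog 2 a + 1)) g →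
        Q.eval (n + a) * (Finset.univ.filter fun x => f x ≠ g x).card ≤ 2 ^ n →
        Q.eval (n + a + Nat.clog 2 b) ≤ m →
        (1 - 1 / (b : ℝ)) * ((2 : ℝ) ^ n) ^ m ≤
          ((Finset.univ.filter fun ω : Fin m → Fin n → Bool =>
            err f (learn (n, r, a, smp f ω)) ≤ 1 / (a : ℝ)).card : ℝ) :=
  Pool.Agent.H.MP_cba12a_lc.CRL.final t d

end Pool.Agent.Results.MP_cba12a_lc.CodegreeReadDNF
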