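import Pool.Agent.H.MP_cba12a_lc.QP.Main

/-!
# A quasipolynomial statistical query lower bound for monotone DNF formulas

Over the uniform distribution, learning monotone DNF formulas with `s` terms, even weakly, takes
`s ^ (Ω (log s / (log log s) ^ 3))` statistical queries.
-/

namespace Pool.Agent.Results.MP_cba12a_lc.QuasipolySQ

open Finset Pool.Agent.H.MP_cba12a_lc.SQ Pool.Agent.H.MP_cba12a_lc.QP

/-- There are `c > 0` and `s₀` such that for all `s ≥ s₀` and all `n ≥ s`, with
`Q = s ^ (c log s / (log log s) ^ 3)` (logarithms to base two): every randomised statistical query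
learner making `⌊Q⌋` queries of tolerance `1 / Q` has error more than
`1 / 2 - s ^ (-c / log log s)` with probability at least `1 - 1 / Q` for some monotone DNF target
with at most `s` terms and some valid oracle. -/
theorem result : ∃ c : ℝ, 0 < c ∧ ∃ s₀ : ℕ, ∀ s n : ℕ, s₀ ≤ s → s ≤ n → ∀ Q : ℝ,
    Q = (s : ℝ) ^ (c * Real.logb 2 s / Real.logb 2 (Real.logb 2 s) ^ 3) →
    ∀ (Ω : Type) [Fintype Ω] (A : Ω → Learner n),
      ∃ F : List (Finset (Fin n)), F.length ≤ s ∧
        ∃ O : Query n → ℝ, Valid (mdnf F) (1 / Q) O ∧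
          ((univ.filter fun ω => err ((A ω).out ((A ω).answers O ⌊Q⌋₊)) (mdnf F) ≤
            1 / 2 - (s : ℝ) ^ (-(c / Real.logb 2 (Real.logb 2 s)))).card : ℝ) ≤
          Fintype.card Ω / Q :=
  quasi_bound

end Pool.Agent.Results.MP_cba12a_lc.QuasipolySQ
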