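import Pool.Agent.H.MP_cba12a_lc.SP.Main
import Pool.Agent.H.MP_cba12a_lc.Clock6

/-!
# DNF formulas with arbitrary variable sets and random negations

One algorithm, which sees only uniform random labelled examples, learns, for all `n`, `r`, `s`, `a`,
`d` and every choice of the variable sets of the `s` terms such that each set has at most `r` or at
least `50 * (⌈log₂ (a * d)⌉ + 1)` elements, the DNF formulas with these variable sets for all but a
`1 / d` fraction of the choices of the negations, to accuracy `1 / a`, in time polynomial in
`(n + 1) ^ r` and the length of the input. For constant `r` this is polynomial in all parameters;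
for `r = 50 * (⌈log₂ (a * d)⌉ + 1)` there is no condition on the variable sets.
-/

namespace Pool.Agent.Results.MP_cba12a_lc.SemirandomDNF

open Pool.Agent.H.MP_5be563_lc.PT Pool.Agent.H.MP_cba12a_lc Pool.Agent.H.MP_cba12a_lc.SR
  Pool.Agent.H.MP_cba12a_lc.SP

/-- **DNF formulas with worst-case variable sets and random negations are learnable from uniform
random examples.**

`learn (n, r, s, a, d, S)` is the hypothesis (a DNF formula) found from the labelled sample `S`. The
running time is at most a polynomial in `(n + 1) ^ r` and the length of the input. Let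
`V 0, …, V (s - 1)` be variable sets (unknown to the learner), each with at most `r` or at least
`50 * (⌈log₂ (a * d)⌉ + 1)` elements. There is an exceptional set `Bad` of at most a fraction
`1 / d` of all sign patterns `σ : Fin s → Fin n → Bool` such that for every other `σ` the DNF
formula `g = sdnf V σ = ⋁ j, ⋀ i ∈ V j, (x i = σ j i)` is learned: for every `f` that differs from
`g` on at most a fraction `1 / Q (n + s + a * d)` of the cube (for example `f = g`) and every number
`m ≥ Q (n + s + a * d + ⌈log₂ b⌉)` of samples, for all but a `1 / b` fraction of the sequences of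
`m` points the hypothesis found from their labels by `f` has error at most `1 / a`. -/
theorem result :
    ∃ (learn : ℕ × ℕ × ℕ × ℕ × ℕ × Samples → List (List Lit)) (P Q : Polynomial ℕ),
      ComputedInTime learn (fun i => P.eval ((i.1 + 1) ^ i.2.1 + (code i).length)) ∧
      ∀ (n r s a d : ℕ) (V : Fin s → Finset (Fin n)), 1 ≤ a → 1 ≤ d →
        (∀ j, (V j).card ≤ r ∨ 50 * (Nat.clog 2 (a * d) + 1) ≤ (V j).card) →
        ∃ Bad : Finset (Fin s → Fin n → Bool),
          d * Bad.card ≤ Fintype.card (Fin s → Fin n → Bool) ∧
          ∀ σ, σ ∉ Bad → ∀ (b m : ℕ) (f : (Fin n → Bool) → Bool), 1 ≤ b →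
            Q.eval (n + s + a * d) *
              (Finset.univ.filter fun x => f x ≠ sdnf V σ x).card ≤ 2 ^ n →
            Q.eval (n + s + a * d + Nat.clog 2 b) ≤ m →
            (1 - 1 / (b : ℝ)) * ((2 : ℝ) ^ n) ^ m ≤
              ((Finset.univ.filter fun ω : Fin m → Fin n → Bool =>
                err f (learn (n, r, s, a, d, smp f ω)) ≤ 1 / (a : ℝ)).card : ℝ) := by
  obtain ⟨P, hP⟩ := computedInTime_of_run (f := SP.learn) (g := fun p => (p.1 + 1) ^ p.2.1)
    (run_search (g := fun p : ℕ × ℕ × ℕ × ℕ × ℕ × Samples => (p.1 + 1) ^ p.2.1)
      (poly_cpTest (by fun_prop) (by fun_prop) (by fun_prop) (fun _ => by omega))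
      SP.poly_learnT)
  exact ⟨SP.learn, P, SP.QP, hP, fun n r s a d V ha hd hV => SP.main n r s a d V ha hd hV⟩

end Pool.Agent.Results.MP_cba12a_lc.SemirandomDNF
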